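import Pool.Agent.MT100D.Defs

/-! Statements of the modules of MT100-D (no condition at infinity). -/

set_option autoImplicit false

namespace Pool.Agent.MT100D

open Matrix Polynomial Pool.Agent.MT100 Pool.Agent.MT100G Pool.Agent.MT100A Pool.Agent.Helper78_MT

universe u

/-! ### Arithmetic of systems with rational exponents -/

/-- GALD: denominators and size of the `P_k` -/
def GalDStmt : Prop :=
  ∀ (d : Type) [Fintype d] [DecidableEq d] (H K : Matrix d d (PowerSeries ℚ)) (N : Matrix d d ℤ)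
    (δ : d → ℚ) (q : ℤ[X]) (B : Matrix d d ℤ[X]), GSysD H K N δ q B →
    ∃ C : ℕ, 0 < C ∧ ∀ T : ℕ, ∃ D : ℕ, 0 < D ∧ D ≤ C ^ (T + 1) ∧
      ∀ (M : ℕ) (A : ℚ) (P : Matrix d d ℤ[X]), (∀ i j, (P i j).natDegree ≤ M) →
        (∑ i, ∑ j, nrm (zq (P i j))) ≤ A → ∀ k ≤ T,
          (∀ i j, ∃ z : ℤ[X],
            (D : ℚ) • Pk (zq q) (B.map zq) (AA N δ) (P.map zq) k i j = zq z) ∧
          (∑ i, ∑ j, nrm (Pk (zq q) (B.map zq) (AA N δ) (P.map zq) k i j)) ≤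
            A * 2 ^ M * (C : ℚ) ^ (T + 1)

/-- ZSAD: first zero estimate -/
def ZsaDStmt : Prop :=
  ∀ (d : Type) [Fintype d] [DecidableEq d] (H K : Matrix d d (PowerSeries ℚ)) (N : Matrix d d ℤ)
    (δ : d → ℚ) (q : ℤ[X]) (B : Matrix d d ℤ[X]), GSysD H K N δ q B → ∀ u : d → ℚ,
    AA N δ *ᵥ u = 0 →
    ∀ (m' e : ℕ) (ε : d ≃ Fin m' ⊕ Fin e) (R : Fin e → d → ℚ[X]), RelB (hv H u) R →
    ∃ c0 : ℕ, ∀ (M : ℕ) (P : d → ℚ[X]), (∀ i, (P i).natDegree ≤ M) →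
      ∑ i, ((P i : ℚ[X]) : PowerSeries ℚ) * hv H u i ≠ 0 →
      (∀ i ≤ (m' - 1) * M + c0,
        PowerSeries.coeff i (∑ i, ((P i : ℚ[X]) : PowerSeries ℚ) * hv H u i) = 0) →
      Dt (zq q) (B.map zq) P ε R ≠ 0

/-- ZSBD: second zero estimate -/
def ZsbDStmt : Prop :=
  ∀ (d : Type) [Fintype d] [DecidableEq d] (H K : Matrix d d (PowerSeries ℚ)) (N : Matrix d d ℤ)
    (δ : d → ℚ) (q : ℤ[X]) (B : Matrix d d ℤ[X]), GSysD H K N δ q B → ∀ u : d → ℚ,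
    AA N δ *ᵥ u = 0 →
    ∀ (m' e : ℕ) (ε : d ≃ Fin m' ⊕ Fin e) (R : Fin e → d → ℚ[X]), RelB (hv H u) R →
    ∃ c2 n0 : ℕ, ∀ (M T τ : ℕ) (P : d → ℚ[X]) (n : ℕ), n0 ≤ n → (∀ i, (P i).natDegree ≤ M) →
      (∀ i < T, PowerSeries.coeff i (∑ i, ((P i : ℚ[X]) : PowerSeries ℚ) * hv H u i) = 0) →
      Dt (zq q) (B.map zq) P ε R ≠ 0 → m' * M + c2 ≤ T + τ →
      LinearIndependent ℚ (fun l i => (R l i).eval ((n : ℚ)⁻¹)) ∧
      ∀ y : d → ℚ, (∀ k < m' + τ,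
        ∑ i, (Pv (zq q) (B.map zq) P k i).eval ((n : ℚ)⁻¹) * y i = 0) →
        (∀ l, ∑ i, (R l i).eval ((n : ℚ)⁻¹) * y i = 0) → y = 0

/-- GFVD: a rational relation between the values at `1/n` of the solution `H u` is the specialisation
of a relation over the polynomials -/
def GfvDStmt : Prop :=
  ∀ (d : Type) [Fintype d] [DecidableEq d] (H K : Matrix d d (PowerSeries ℚ)) (N : Matrix d d ℤ)
    (δ : d → ℚ) (q : ℤ[X]) (B : Matrix d d ℤ[X]), GSysD H K N δ q B → ∀ u : d → ℤ,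
    AA N δ *ᵥ (fun i => (u i : ℚ)) = 0 →
    ∃ n0 : ℕ, ∀ n : ℕ, n0 ≤ n → ∀ a : d → ℚ,
      ∑ i, (a i : ℝ) * ev (hv H (fun j => (u j : ℚ)) i) (n : ℝ)⁻¹ = 0 →
      ∃ p : d → ℚ[X], ∑ i, ((p i : ℚ[X]) : PowerSeries ℚ) * hv H (fun j => (u j : ℚ)) i = 0 ∧
        ∀ i, (p i).eval ((n : ℚ)⁻¹) = a i

/-- GFMD: the same for all the entries of a fundamental matrix (no condition on `H(0)`) -/
def GfmDStmt : Prop :=
  ∀ (d : Type) [Fintype d] [DecidableEq d] (H : Matrix d d (PowerSeries ℚ)), IsGW H →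
    ∃ n0 : ℕ, ∀ n : ℕ, n0 ≤ n → ∀ a : Matrix d d ℚ,
      ∑ i, ∑ j, (a i j : ℝ) * ev (H i j) (n : ℝ)⁻¹ = 0 →
      ∃ p : Matrix d d ℚ[X], ∑ i, ∑ j, ((p i j : ℚ[X]) : PowerSeries ℚ) * H i j = 0 ∧
        ∀ i j, (p i j).eval ((n : ℚ)⁻¹) = a i j

/-- TRGD: the translates are again systems of G-type -/
def TrgDStmt : Prop :=
  ∀ (d : Type) [Fintype d] [DecidableEq d] (H K : Matrix d d (PowerSeries ℚ)) (N : Matrix d d ℤ)
    (δ : d → ℚ) (q : ℤ[X]) (B : Matrix d d ℤ[X]), GSysW H K N δ q B → ∀ κ : ℕ,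
    IsGW (TrD H N δ κ)

/-- SYSD: tensor products of systems -/
def SysDStmt : Prop :=
  ∀ (ι m : Type) [Fintype ι] [Fintype m] [DecidableEq ι] [DecidableEq m]
    (H : ι → Matrix m m (PowerSeries ℚ)), (∀ s, IsGW (H s)) → IsGW (kr H)

/-- VAGD: the values of the translates -/
def VagDStmt : Prop :=
  ∀ (d : Type) [Fintype d] [DecidableEq d] (F : Family d) (κ : ℕ), ∀ᶠ w : ℝ in Filter.atTop,
    F.Y ((w : ℂ) - κ) * F.R w = F.tv κ w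

/-! ### Fundamental matrices on a half plane, monodromy -/

/-- BASD: the solution near infinity -/
def BasDStmt : Prop :=
  ∀ (d : Type) [Fintype d] [DecidableEq d] (F : Family d), ∃ R : ℝ, Base F.q F.B R F.Y

/-- MOAD: the monodromy matrices form a group -/
def MoaDStmt : Prop :=
  ∀ (d : Type) [Fintype d] [DecidableEq d] (q : ℤ[X]) (B : Matrix d d ℤ[X]) (R : ℝ)
    (Y : ℂ → Matrix d d ℂ), Base q B R Y → ∀ U : Set ℂ,
    (∀ a ∈ monY q B Y U, IsUnit a.det) ∧ (1 : Matrix d d ℂ) ∈ monY q B Y U ∧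
    (∀ a ∈ monY q B Y U, ∀ b ∈ monY q B Y U, a * b ∈ monY q B Y U) ∧
    ∀ a ∈ monY q B Y U, a⁻¹ ∈ monY q B Y U

/-- HMND: the monodromy group is the monodromy group of a half plane -/
def HmnDStmt : Prop :=
  ∀ (d : Type) [Fintype d] [DecidableEq d] (q : ℤ[X]) (B : Matrix d d ℤ[X]) (R : ℝ)
    (Y : ℂ → Matrix d d ℂ), Base q B R Y →
    ∃ m0 : ℝ, ∀ g ∈ monY q B Y Set.univ, g ∈ monY q B Y {w | m0 < w.re}

/-- HTRD: the monodromy group of a far half plane is trivial -/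
def HtrDStmt : Prop :=
  ∀ (d : Type) [Fintype d] [DecidableEq d] (q : ℤ[X]) (B : Matrix d d ℤ[X]) (R : ℝ)
    (Y : ℂ → Matrix d d ℂ), Base q B R Y →
    ∃ m1 : ℝ, ∀ g ∈ monY q B Y {w | m1 < w.re}, g = 1

/-- KEAD: simultaneous continuation along a chain inside a half plane -/
def KeaDStmt : Prop :=
  ∀ (d : Type) [Fintype d] [DecidableEq d] (q : ℤ[X]) (B : Matrix d d ℤ[X]) (R : ℝ)
    (Y : ℂ → Matrix d d ℂ), Base q B R Y → ∀ (ι : Type) [Fintype ι] (κ : ι → ℕ) (i : ι)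
    (m : ℝ), ∀ g ∈ monY q B Y {w | m < w.re}, ∃ t ∈ tupY q B Y κ, t.1 i = g ∧
      (0 ≤ m + κ i → t.2 = 0) ∧ ∀ j, t.1 j ∈ monY q B Y {w | m + κ i - κ j < w.re}

/-- T1AD: the tuples form a group -/
def T1aDStmt : Prop :=
  ∀ (d : Type) [Fintype d] [DecidableEq d] (q : ℤ[X]) (B : Matrix d d ℤ[X]) (R : ℝ)
    (Y : ℂ → Matrix d d ℂ), Base q B R Y → ∀ (ι : Type) [Fintype ι] (κ : ι → ℕ),
    (∀ t ∈ tupY q B Y κ, ∀ i, t.1 i ∈ monY q B Y Set.univ) ∧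
    ((fun _ => 1, 0) : (ι → Matrix d d ℂ) × ℤ) ∈ tupY q B Y κ ∧
    (∀ t ∈ tupY q B Y κ, ∀ t' ∈ tupY q B Y κ,
      ((fun i => t.1 i * t'.1 i, t.2 + t'.2) : (ι → Matrix d d ℂ) × ℤ) ∈ tupY q B Y κ) ∧
    ∀ t ∈ tupY q B Y κ, ((fun i => (t.1 i)⁻¹, -t.2) : (ι → Matrix d d ℂ) × ℤ) ∈ tupY q B Y κ

/-- TUAD: for separated translates every element of the monodromy group is the component `i` of a
tuple whose components with smaller translates are trivial -/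
def TuaDStmt : Prop :=
  ∀ (d : Type) [Fintype d] [DecidableEq d] (q : ℤ[X]) (B : Matrix d d ℤ[X]) (R : ℝ)
    (Y : ℂ → Matrix d d ℂ), Base q B R Y → ∃ D : ℕ,
    ∀ (ι : Type) [Fintype ι] (κ : ι → ℕ), Sep D κ → ∀ (i : ι), ∀ g ∈ monY q B Y Set.univ,
      ∃ t ∈ tupY q B Y κ, t.1 i = g ∧ t.2 = 0 ∧ ∀ j, κ j < κ i → t.1 j = 1

/-! ### Relations -/

/-- PMAD: permanence of relations under continuation -/
def PmaDStmt : Prop :=
  ∀ (d : Type) [Fintype d] [DecidableEq d] (q : ℤ[X]) (B : Matrix d d ℤ[X]) (R : ℝ)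
    (Y : ℂ → Matrix d d ℂ), Base q B R Y → ∀ (ι : Type) [Fintype ι] (κ : ι → ℕ) (m : ℕ), 0 < m →
    ∃ R0 : ℝ, ∀ Φ : MvPolynomial (Fin 3 ⊕ (ι × d × d)) ℂ,
      (∀ᶠ w : ℝ in Filter.atTop, MvPolynomial.eval (vrD m (w : ℂ) (Complex.log w)
        fun i => Y ((w : ℂ) - κ i)) Φ = 0) →
      ∀ t ∈ tupY q B Y κ, ∀ w : ℝ, R0 < w →
        MvPolynomial.eval (vrD m (w : ℂ) (Complex.log w + 2 * Real.pi * Complex.I * t.2)
          fun i => Y ((w : ℂ) - κ i) * t.1 i) Φ = 0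

/-- PSAD: relations persist under the product of the Zariski closures -/
def PsaDStmt : Prop :=
  ∀ (d : Type) [Fintype d] [DecidableEq d] (q : ℤ[X]) (B : Matrix d d ℤ[X]) (R : ℝ)
    (Y : ℂ → Matrix d d ℂ), Base q B R Y → ∃ D : ℕ,
    ∀ (ι : Type) [Fintype ι] [DecidableEq ι] (κ : ι → ℕ), Sep D κ → ∀ m : ℕ, 0 < m →
    ∃ R0 : ℝ, ∀ Φ : MvPolynomial (Fin 3 ⊕ (ι × d × d)) ℂ,
      (∀ᶠ w : ℝ in Filter.atTop, MvPolynomial.eval (vrD m (w : ℂ) (Complex.log w)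
        fun i => Y ((w : ℂ) - κ i)) Φ = 0) →
      ∀ w : ℝ, R0 < w → ∀ g : ι → Matrix d d ℂ,
        (∀ i, g i ∈ zclosure ℂ ℂ (monY q B Y Set.univ)) →
        MvPolynomial.eval (vrD m (w : ℂ) (Complex.log w)
          fun i => Y ((w : ℂ) - κ i) * g i) Φ = 0

/-- FSAD: formal relations persist -/
def FsaDStmt : Prop :=
  ∀ (d : Type) [Fintype d] [DecidableEq d] (F : Family d), ∃ D : ℕ,
    ∀ (ι : Type) [Fintype ι] [DecidableEq ι] (κ : ι → ℕ), Sep D κ → ∀ k : ℕ,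
    ∃ R0 : ℝ, ∀ p : (ι × Fin k → d) → (ι × Fin k → d) → ℚ[X],
      ∑ β, ∑ α, ((p β α : ℚ[X]) : PowerSeries ℚ) * ∏ s, F.T (κ s.1) (β s) (α s) = 0 →
      ∀ w : ℝ, R0 < w → ∀ g : ι → Matrix d d ℂ, (∀ i, g i ∈ F.Zc) →
        ∑ β, ∑ α, (p β α).eval₂ (algebraMap ℚ ℂ) ((w : ℂ)⁻¹) *
          ∏ s, (F.Y ((w : ℂ) - κ s.1) * g s.1 * F.R w) (β s) (α s) = 0

/-- NMAD: numerical relations at `1/n` persist -/
def NmaDStmt : Prop :=
  ∀ (d : Type) [Fintype d] [DecidableEq d] (F : Family d), ∃ D : ℕ,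
    ∀ (ι : Type) [Fintype ι] [DecidableEq ι] (κ : ι → ℕ), Sep D κ → ∀ k : ℕ,
    ∃ n0 : ℕ, ∀ n : ℕ, n0 ≤ n → ∀ c : (ι × Fin k → d) → (ι × Fin k → d) → ℚ,
      ∑ β, ∑ α, (c β α : ℂ) * ∏ s, F.tv (κ s.1) n (β s) (α s) = 0 →
      ∀ g : ι → Matrix d d ℂ, (∀ i, g i ∈ F.Zc) →
        ∑ β, ∑ α, (c β α : ℂ) *
          ∏ s, (F.Y ((n : ℂ) - κ s.1) * g s.1 * F.R n) (β s) (α s) = 0

/-- ELAD: elimination of the unknown rational structure; windows and density -/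
def ElaDStmt : Prop :=
  ∀ (d : Type) [Fintype d] [DecidableEq d] (F : Family d) (k : ℕ) (A : Set (Fin k → d)),
    ∃ (C : ℕ) (n1 : ℕ → ℕ), ∀ P : Matrix d d ℂ, IsUnit P.det →
    ∀ S : Set ℕ, (∀ n ∈ S, ∃ t : (Fin k → d) → ℚ,
      (∀ a ∈ A, ∑ β, (t β : ℂ) * ∏ j, F.per P n (a j) (β j) = 0) ∧
      ∃ g ∈ F.Zc, ∃ a ∈ A,
        ∑ β, (t β : ℂ) * ∏ j, (P *ᵥ (F.Y n * g) (a j)) (β j) ≠ 0) →
      (∀ K n : ℕ, n1 K ≤ n → Nat.card {m : ℕ // m ∈ S ∧ n < m + K ∧ m ≤ n} ≤ C) ∧ DensZero S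

/-! ### The group theory, for an abstract monodromy group -/

/-- LADM: if the monodromy group `M` is of the first kind, the connected algebraic monodromy group of
a representation of geometric type is `GmM M` -/
def LadMStmt : Prop :=
  ∀ (d : Type) [Fintype d] [DecidableEq d] (M : Set (Matrix d d ℂ)),
    (∀ a ∈ M, ∀ b ∈ M, a * b ∈ M) → (∀ γ ∈ M, ∃ A : Matrix d d ℤ, γ = A.map (fun x => (x : ℂ))) →
    ∀ (w : ℕ) (E : Matrix d d ℚ) (V : ℕ → Submodule ℂ (d → ℂ)), 1 ≤ w → PolHodge w E V →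
    (∀ γ ∈ M, γᵀ * E.map (algebraMap ℚ ℂ) * γ = E.map (algebraMap ℚ ℂ)) →
    FirstKind E M → TorusIn w V M →
    (∀ (K : Type u) [Field K] [CharZero K], GenM M w V K = GmM M K) ∧
    ∀ (ℓ : ℕ) [Fact ℓ.Prime] (Γ : Type) [Group Γ] [TopologicalSpace Γ] [IsTopologicalGroup Γ]
      [CompactSpace Γ] (ρ : Γ →* GL d ℚ_[ℓ]), Continuous ρ → GeoM M E ρ →
      ∀ (K : Type u) [Field K] [CharZero K] [Algebra ℚ_[ℓ] K], monodromy ρ K = GmM M K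

/-! ### Main theorem -/

/-- MAAD: Hodge genericity of one hundred percent of the integral fibres of every family, and the
comparison with the l-adic side -/
def MaaDStmt : Prop :=
  ∀ (d : Type) [Fintype d] [DecidableEq d] (F : Family d) (w : ℕ) (lev : d → ℕ), 1 ≤ w →
    ∃ (C : ℕ) (n1 : ℕ → ℕ), ∀ P : Matrix d d ℂ, IsUnit P.det → F.IntM P →
    ∃ S : Set ℕ, DensZero S ∧
      (∀ K n : ℕ, n1 K ≤ n → Nat.card {m : ℕ // m ∈ S ∧ n < m + K ∧ m ≤ n} ≤ C) ∧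
      ∀ n : ℕ, n ∉ S → ∀ (E : Matrix d d ℚ) (V : ℕ → Submodule ℂ (d → ℂ)),
        F.Fibre lev P w n E V → ∀ (K : Type u) [Field K] [CharZero K],
          mtGroup w V K = GenM (F.Mo P) w V K

end Pool.Agent.MT100D
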