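import Pool.Agent.MT100A.DefsL
import Pool.Agent.MT100A.DefsC
import Pool.Agent.Helper34_MTQ.Bin

/-! Arbitrary one parameter families over an open part of the affine line: no condition on the
monodromy group and no condition on the monodromy at infinity. -/

set_option autoImplicit false

namespace Pool.Agent.MT100D

open Matrix Polynomial Pool.Agent.MT100 Pool.Agent.MT100G Pool.Agent.MT100A Pool.Agent.Helper78_MT

/-! ### Systems with rational exponents -/

section sys
variable {d : Type*} [Fintype d] [DecidableEq d]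

/-- the matrix `A = N + δ` of the exponents -/
def AA (N : Matrix d d ℤ) (δ : d → ℚ) : Matrix d d ℚ := N.map (fun x => (x : ℚ)) + diagonal δ

/-- `H z ^ (N + δ)` is a fundamental matrix of the system with the matrix `B / (z q)`; `H` (with inverse
`K`) has entries of G-type, `N` is nilpotent and commutes with the rational diagonal matrix `δ`. -/
structure GSysW (H K : Matrix d d (PowerSeries ℚ)) (N : Matrix d d ℤ) (δ : d → ℚ)
    (q : Polynomial ℤ) (B : Matrix d d (Polynomial ℤ)) : Prop where
  inv : H * K = 1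
  nil : IsNilpotent N
  com : ∀ i j, N i j ≠ 0 → δ i = δ j
  q0 : q ≠ 0
  ode : (zp q * PowerSeries.X) • H.map dv =
    B.map zp * H - zp q • (H * (AA N δ).map (fun x => PowerSeries.C x))
  gH : ∀ i j, GType (H i j)
  gK : ∀ i j, GType (K i j)

/-- the same with `H(0) = 1` -/
structure GSysD (H K : Matrix d d (PowerSeries ℚ)) (N : Matrix d d ℤ) (δ : d → ℚ)
    (q : Polynomial ℤ) (B : Matrix d d (Polynomial ℤ)) : Prop extends GSysW H K N δ q B where
  one : ∀ i j, PowerSeries.constantCoeff (H i j) = if i = j then 1 else 0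

/-- some system with fundamental matrix `H` exists -/
def IsGW (H : Matrix d d (PowerSeries ℚ)) : Prop := ∃ K N δ q B, GSysW H K N δ q B

/-- the diagonal matrix `exp (δ l)` -/
noncomputable def ed (δ : d → ℚ) (l : ℂ) : Matrix d d ℂ :=
  diagonal fun i => Complex.exp ((δ i : ℂ) * l)

/-- the fundamental matrix near `w = ∞`, `z = 1/w`: `H(z) z ^ N z ^ δ` -/
noncomputable def YD (H : Matrix d d (PowerSeries ℚ)) (N : Matrix d d ℤ) (δ : d → ℚ) (w : ℂ) :
    Matrix d d ℂ := YH H N w * ed δ (-Complex.log w)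

/-- the pullback of the fundamental matrix under `z ↦ z / (1 - κ z)` -/
noncomputable def TrD (H : Matrix d d (PowerSeries ℚ)) (N : Matrix d d ℤ) (δ : d → ℚ) (κ : ℕ) :
    Matrix d d (PowerSeries ℚ) := TrG H N X κ * diagonal fun i => MT100.H34.bn κ (-δ i)

end sys

/-! ### Fundamental matrices on a half plane, monodromy -/

variable {d : Type} [Fintype d] [DecidableEq d]

/-- `Y` is a fundamental matrix of the system on the half plane `Re w > R` -/
structure Base (q : Polynomial ℤ) (B : Matrix d d (Polynomial ℤ)) (R : ℝ)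
    (Y : ℂ → Matrix d d ℂ) : Prop where
  pos : 0 < R
  sol : ∀ (c : ℂ) (ρ : ℝ), 0 < ρ → Metric.ball c ρ ⊆ {w | R < w.re} → SolOn q B c ρ Y

/-- the monodromy matrices inside `U` of the fundamental matrix `Y` -/
def monY (q : Polynomial ℤ) (B : Matrix d d (Polynomial ℤ)) (Y : ℂ → Matrix d d ℂ) (U : Set ℂ) :
    Set (Matrix d d ℂ) :=
  {g | ∀ᶠ c : ℝ in Filter.atTop, Cnt q B U ((c : ℂ), 1, Y) ((c : ℂ), 1, fun w => Y w * g)}

/-- the tuples of monodromy matrices of the translates, with the winding number around the origin -/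
def tupY {ι : Type*} (q : Polynomial ℤ) (B : Matrix d d (Polynomial ℤ)) (Y : ℂ → Matrix d d ℂ)
    (κ : ι → ℕ) : Set ((ι → Matrix d d ℂ) × ℤ) :=
  {t | ∀ᶠ c : ℝ in Filter.atTop, CntT q B κ ((c : ℂ), 1, (fun _ => Y), Complex.log)
    ((c : ℂ), 1, (fun i w => Y w * t.1 i), fun w => Complex.log w + 2 * Real.pi * Complex.I * t.2)}

/-- the values of the variables: `w`, the logarithm `l`, the root `exp (l / m)`, the entries of the
matrices -/
noncomputable def vrD {ι : Type} (m : ℕ) (w l : ℂ) (Y : ι → Matrix d d ℂ) :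
    Fin 3 ⊕ (ι × d × d) → ℂ
  | Sum.inl 0 => w
  | Sum.inl 1 => l
  | Sum.inl 2 => Complex.exp (l / m)
  | Sum.inr x => Y x.1 x.2.1 x.2.2

/-! ### Families -/

/-- A one parameter family: a system of G-type over `ℚ(w)` with rational exponents at infinity (`H` with
inverse `K`, `N`, `δ`, `q`, `B`). -/
structure Family (d : Type) [Fintype d] [DecidableEq d] where
  H : Matrix d d (PowerSeries ℚ)
  K : Matrix d d (PowerSeries ℚ)
  N : Matrix d d ℤ
  δ : d → ℚ
  q : Polynomial ℤ
  B : Matrix d d (Polynomial ℤ)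
  sys : GSysW H K N δ q B

/-- the fundamental matrix near `w = ∞` -/
noncomputable def Family.Y (F : Family d) (w : ℂ) : Matrix d d ℂ := YD F.H F.N F.δ w

/-- `w ^ (N + δ)` -/
noncomputable def Family.R (F : Family d) (w : ℂ) : Matrix d d ℂ :=
  ed F.δ (Complex.log w) * eN F.N (Complex.log w)

/-- the monodromy group inside `U`: the matrices `g` such that `Y` becomes `Y * g` by analytic
continuation along a closed chain of discs inside `U` -/
def Family.mo (F : Family d) (U : Set ℂ) : Set (Matrix d d ℂ) := monY F.q F.B F.Y U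

/-- the Zariski closure (over `ℂ`) of the monodromy group -/
def Family.Zc (F : Family d) : Set (Matrix d d ℂ) := zclosure ℂ ℂ (F.mo Set.univ)

/-- the vector of the periods of the form with index `a` at the point `w`, for the rational structure
given by `P` -/
noncomputable def Family.per (F : Family d) (P : Matrix d d ℂ) (w : ℂ) (a : d) : d → ℂ :=
  P *ᵥ F.Y w a

/-- The Hodge filtration of `V` is given by the periods at `w`; the forms with index `a` and
`p ≤ lev a` span `Fᵖ`. -/
def Family.HasFil (F : Family d) (lev : d → ℕ) (P : Matrix d d ℂ) (w : ℂ)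
    (V : ℕ → Submodule ℂ (d → ℂ)) : Prop :=
  ∀ p : ℕ, (⨆ p' ∈ Set.Ici p, V p') = Submodule.span ℂ {y | ∃ a : d, p ≤ lev a ∧ y = F.per P w a}

/-- the monodromy group acting on the space of the period vectors -/
def Family.Mo (F : Family d) (P : Matrix d d ℂ) : Set (Matrix d d ℂ) :=
  {γ | ∃ g ∈ F.mo Set.univ, γ = P * gᵀ * P⁻¹}

/-- the monodromy preserves the lattice of integral vectors -/
def Family.IntM (F : Family d) (P : Matrix d d ℂ) : Prop :=
  ∀ γ ∈ F.Mo P, ∃ A : Matrix d d ℤ, γ = A.map (fun x => (x : ℂ))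

/-- the form `E` is invariant under the monodromy -/
def Family.InvM (F : Family d) (P : Matrix d d ℂ) (E : Matrix d d ℚ) : Prop :=
  ∀ γ ∈ F.Mo P, γᵀ * E.map (algebraMap ℚ ℂ) * γ = E.map (algebraMap ℚ ℂ)

/-- `V` is a polarised Hodge structure of weight `w` on the flat sections with a polarisation which is
invariant under the monodromy and with the Hodge filtration given by the periods at `n`. -/
def Family.Fibre (F : Family d) (lev : d → ℕ) (P : Matrix d d ℂ) (w n : ℕ) (E : Matrix d d ℚ)
    (V : ℕ → Submodule ℂ (d → ℂ)) : Prop :=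
  PolHodge w E V ∧ F.InvM P E ∧ F.HasFil lev P n V

/-- The `K`-points of the smallest algebraic subgroup over `ℚ` of `GL` which contains the homotheties
and the unipotent one parameter subgroups of the Zariski closure of `M`. -/
def GmM (M : Set (Matrix d d ℂ)) (K : Type*) [Field K] [CharZero K] : Set (Matrix d d K) :=
  {x | ∀ I : Set (MvPolynomial (d × d) ℚ), IsAlgSubgroup I →
    (∀ c : ℂ, c ≠ 0 → c • (1 : Matrix d d ℂ) ∈ zeros I ℂ) →
    (∀ u ∈ Uni M, u ∈ zeros I ℂ) → x ∈ zeros I K}

/-- The `K`-points of the smallest algebraic subgroup over `ℚ` of `GL` which contains the Deligne torus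
of `V` and the unipotent one parameter subgroups of the Zariski closure of `M`. -/
def GenM (M : Set (Matrix d d ℂ)) (w : ℕ) (V : ℕ → Submodule ℂ (d → ℂ)) (K : Type*)
    [Field K] [CharZero K] : Set (Matrix d d K) :=
  {x | ∀ I : Set (MvPolynomial (d × d) ℚ), IsAlgSubgroup I → hodgeTorus w V ⊆ zeros I ℂ →
    (∀ u ∈ Uni M, u ∈ zeros I ℂ) → x ∈ zeros I K}

/-- The representation `ρ` with coefficients in `ℚ_ℓ` is of geometric type for the monodromy group `M`
and the form `E`: for some embedding of `ℚ_ℓ` in `ℂ`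
(1) the image of `ρ` normalises the unipotent one parameter subgroups of the Zariski closure of `M`
(the geometric monodromy group is normal) and consists of similitudes of `E`;
(2) the image of some subgroup of finite index commutes with their commutant;
(3) for every subgroup of finite index the Zariski closure of its image contains these unipotents
(comparison theorem);
(4) some determinant is not a root of unity (weights). -/
def GeoM (M : Set (Matrix d d ℂ)) (E : Matrix d d ℚ) {ℓ : ℕ} [Fact ℓ.Prime]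
    {Γ : Type*} [Group Γ] (ρ : Γ →* GL d ℚ_[ℓ]) : Prop :=
  ∃ ι : ℚ_[ℓ] →+* ℂ,
    (∀ γ : Γ, (∀ X ∈ H78.nilP M, (ρ γ : Matrix d d ℚ_[ℓ]).map ι * X *
        ((ρ γ : Matrix d d ℚ_[ℓ]).map ι)⁻¹ ∈ H78.nilP M) ∧
      ∃ c : ℂ, ((ρ γ : Matrix d d ℚ_[ℓ]).map ι)ᵀ * E.map (algebraMap ℚ ℂ) *
        (ρ γ : Matrix d d ℚ_[ℓ]).map ι = c • E.map (algebraMap ℚ ℂ)) ∧
    (∃ Γ' : Subgroup Γ, Γ'.FiniteIndex ∧ ∀ γ ∈ Γ', ∀ B ∈ Cmt M,
      (ρ γ : Matrix d d ℚ_[ℓ]).map ι * B = B * (ρ γ : Matrix d d ℚ_[ℓ]).map ι) ∧
    (∀ Γ' : Subgroup Γ, Γ'.FiniteIndex → ∀ f : MvPolynomial (d × d) ℚ_[ℓ],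
      (∀ γ ∈ Γ', pev (ρ γ : Matrix d d ℚ_[ℓ]) f = 0) →
      ∀ u ∈ Uni M, pev u (MvPolynomial.map ι f) = 0) ∧
    ∃ γ : Γ, ∀ m : ℕ, 0 < m → (ρ γ : Matrix d d ℚ_[ℓ]).det ^ m ≠ 1

/-- The rational tensor `t` of degree `k` is a Hodge tensor at the point `x`: it vanishes on the forms
with indices `a 0, ..., a (k-1)` if the sum of the levels is larger than `k w / 2`. -/
def Family.HodgeAt (F : Family d) (lev : d → ℕ) (P : Matrix d d ℂ) (w : ℕ) (x : ℂ) {k : ℕ}
    (t : (Fin k → d) → ℚ) : Prop :=
  ∀ a : Fin k → d, k * w < 2 * ∑ j, lev (a j) → ∑ β, (t β : ℂ) * ∏ j, F.per P x (a j) (β j) = 0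

/-- The theorem of the fixed part (Griffiths, Deligne, Schmid) for the points `x` with `Re x > R`: if a
rational tensor which is invariant under the unipotent one parameter subgroups of the Zariski closure
of the monodromy group is a Hodge tensor at one point, it is a Hodge tensor at every point. -/
def Family.FixedPart (F : Family d) (lev : d → ℕ) (P : Matrix d d ℂ) (w : ℕ) (R : ℝ) : Prop :=
  ∀ (k : ℕ) (t : (Fin k → d) → ℚ),
    (∀ u ∈ Uni (F.Mo P), tA (fun β => (t β : ℂ)) u = fun β => (t β : ℂ)) →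
    ∀ x y : ℂ, R < x.re → R < y.re → F.HodgeAt lev P w x t → F.HodgeAt lev P w y t

/-! ### Translates -/

/-- the translated fundamental matrix -/
noncomputable def Family.T (F : Family d) (κ : ℕ) : Matrix d d (PowerSeries ℚ) :=
  TrD F.H F.N F.δ κ

/-- its value at `1/w` -/
noncomputable def Family.tv (F : Family d) (κ : ℕ) (w : ℝ) : Matrix d d ℂ :=
  (F.T κ).map (fun f => ((ev f w⁻¹ : ℝ) : ℂ))

end Pool.Agent.MT100D
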